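import Pool.Agent.H74.PP.Targets
import Pool.Agent.H22.MR.Cheb

/-!
# PP, module PD: the diagonal term
-/

set_option autoImplicit false

open Complex MeasureTheory Set Finset

namespace Pool.Agent.H73.PP

open Pool.Agent.H23.GLH (PrimChar)
open Pool.Agent.H28.MZ (co)
open Pool.Agent.H74.PP
open Pool.Agent.H22.MR

theorem kk_nonneg (x : ℝ) : 0 ≤ kk x :=
  mul_nonneg (Real.smoothTransition.nonneg _) (Real.smoothTransition.nonneg _)

theorem kk_le_one (x : ℝ) : kk x ≤ 1 :=
  mul_le_one₀ (Real.smoothTransition.le_one _) (Real.smoothTransition.nonneg _)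
    (Real.smoothTransition.le_one _)

theorem kk_eq_one {x : ℝ} (h1 : 1 / 2 ≤ x) (h2 : x ≤ 3 / 4) : kk x = 1 := by
  unfold kk
  rw [Real.smoothTransition.one_of_one_le (by linarith),
    Real.smoothTransition.one_of_one_le (by linarith), one_mul]

theorem norm_co_le (π : PrimChar) (n : ℕ) : ‖co π n‖ ≤ 1 := by
  unfold co
  split_ifs
  · simp
  · exact π.χ.norm_le_one _

theorem norm_co_eq (π : PrimChar) {p : ℕ} (hp : p.Prime) (hq : π.q < p) : ‖co π p‖ = 1 := by
  have := π.q_ne
  unfold co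
  rw [if_neg hp.ne_zero]
  have h1 : Nat.Coprime p π.q := by
    rw [Nat.Prime.coprime_iff_not_dvd hp]
    intro h
    have := Nat.le_of_dvd (Nat.pos_of_ne_zero (NeZero.ne π.q)) h
    omega
  have h2 : IsUnit (p : ZMod π.q) := (ZMod.isUnit_iff_coprime p π.q).2 h1
  obtain ⟨u, hu⟩ := h2
  rw [← hu]
  exact π.χ.unit_norm_eq_one u

theorem norm_pow_it {n : ℕ} (hn : 0 < n) (t : ℝ) : ‖(n : ℂ) ^ (-(t * I))‖ = 1 := by
  rw [Complex.norm_natCast_cpow_of_pos hn]
  simp

/-- prime powers contribute a bounded amount -/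
theorem nonprime_bound : ∃ C : ℝ, 0 ≤ C ∧ ∀ s : Finset ℕ,
    ∑ n ∈ s.filter (fun n => ¬ n.Prime), ArithmeticFunction.vonMangoldt n / n ≤ C := by
  have hs := ArithmeticFunction.vonMangoldt.summable_residueClass_non_primes_div (0 : ZMod 1)
  have h0 : ∀ n : ℕ, 0 ≤ (if n.Prime then 0 else
      ArithmeticFunction.vonMangoldt.residueClass (0 : ZMod 1) n) / (n : ℝ) := by
    intro n
    split_ifs
    · simp
    · exact div_nonneg (ArithmeticFunction.vonMangoldt.residueClass_nonneg _ n) (Nat.cast_nonneg n)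
  refine ⟨∑' n : ℕ, (if n.Prime then 0 else
      ArithmeticFunction.vonMangoldt.residueClass (0 : ZMod 1) n) / (n : ℝ),
    tsum_nonneg h0, fun s => ?_⟩
  have h1 : ∑ n ∈ s.filter (fun n => ¬ n.Prime), ArithmeticFunction.vonMangoldt n / n =
      ∑ n ∈ s.filter (fun n => ¬ n.Prime), (if n.Prime then 0 else
      ArithmeticFunction.vonMangoldt.residueClass (0 : ZMod 1) n) / (n : ℝ) := by
    apply Finset.sum_congr rfl
    intro n hn
    rw [Finset.mem_filter] at hn
    rw [if_neg hn.2]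
    congr 1
    unfold ArithmeticFunction.vonMangoldt.residueClass
    rw [Set.indicator_of_mem]
    exact Subsingleton.elim _ _
  rw [h1]
  exact hs.sum_le_tsum _ (fun n _ => h0 n)

theorem log_floor_exp {x : ℝ} (hx : 1 ≤ x) : x - 1 ≤ Real.log ⌊Real.exp x⌋₊ := by
  have h1 : Real.exp x < ⌊Real.exp x⌋₊ + 1 := Nat.lt_floor_add_one _
  have h2 : Real.exp (x - 1) ≤ ⌊Real.exp x⌋₊ := by
    have h3 : Real.exp x = Real.exp (x - 1) * Real.exp 1 := by
      rw [← Real.exp_add]; congr 1; ring
    have h4 := exp1_gt2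
    have h5 : 1 ≤ Real.exp (x - 1) := Real.one_le_exp (by linarith)
    nlinarith
  have h3 := Real.log_le_log (Real.exp_pos _) h2
  rwa [Real.log_exp] at h3

/-- primes between `e^{l/2}` and `e^{3l/4}` -/
theorem prime_sum_ge : ∃ C : ℝ, 0 ≤ C ∧ ∀ l : ℝ, 2 ≤ l →
    l / 4 - C ≤ ∑ p ∈ (Finset.Ioc ⌊Real.exp (l / 2)⌋₊ ⌊Real.exp (3 * l / 4)⌋₊).filter Nat.Prime,
      Real.log p / p := by
  obtain ⟨C, hC, hnp⟩ := nonprime_bound
  refine ⟨C + 8, by linarith, fun l hl => ?_⟩
  set A := ⌊Real.exp (l / 2)⌋₊ with hA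
  set B := ⌊Real.exp (3 * l / 4)⌋₊ with hB
  have hAB : A ≤ B := Nat.floor_le_floor (Real.exp_le_exp.2 (by linarith))
  have h1 : 1 ≤ A := by
    rw [hA, Nat.one_le_floor_iff]
    exact Real.one_le_exp (by linarith)
  have h2 := mertens_ge (h1.trans hAB)
  have h3 := mertens_le h1
  have h4 : Real.log A ≤ l / 2 := by
    have := Real.log_le_log (by exact_mod_cast h1) (Nat.floor_le (Real.exp_pos (l / 2)).le)
    rwa [Real.log_exp] at this
  have h5 : 3 * l / 4 - 1 ≤ Real.log B := log_floor_exp (by linarith)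
  have e : ∑ d ∈ Finset.Icc 1 B, ArithmeticFunction.vonMangoldt d / d =
      ∑ d ∈ Finset.Icc 1 A, ArithmeticFunction.vonMangoldt d / (d : ℝ) +
        ∑ d ∈ Finset.Ioc A B, ArithmeticFunction.vonMangoldt d / (d : ℝ) := by
    rw [← Finset.sum_union]
    · congr 1
      ext d
      simp only [Finset.mem_union, Finset.mem_Icc, Finset.mem_Ioc]
      omega
    · rw [Finset.disjoint_left]
      intro d hd hd'
      rw [Finset.mem_Icc] at hd
      rw [Finset.mem_Ioc] at hd'
      omega
  have e2 := Finset.sum_filter_add_sum_filter_not (Finset.Ioc A B) Nat.Prime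
    (fun d => ArithmeticFunction.vonMangoldt d / (d : ℝ))
  have h6 := hnp (Finset.Ioc A B)
  have e3 : ∑ p ∈ (Finset.Ioc A B).filter Nat.Prime, Real.log p / p =
      ∑ p ∈ (Finset.Ioc A B).filter Nat.Prime, ArithmeticFunction.vonMangoldt p / (p : ℝ) := by
    apply Finset.sum_congr rfl
    intro p hp
    rw [ArithmeticFunction.vonMangoldt_apply_prime (Finset.mem_filter.1 hp).2]
  rw [e3]
  linarith

theorem pd : T_PD := by
  obtain ⟨C, hC, hP⟩ := prime_sum_ge
  intro π
  have hqne := π.q_ne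
  refine ⟨max 6 (max (20 * C) (2 * π.q)), fun l hl => ?_⟩
  have hl6 : 6 ≤ l := (le_max_left _ _).trans hl
  have hlC : 20 * C ≤ l := ((le_max_left _ _).trans (le_max_right _ _)).trans hl
  have hlq : 2 * (π.q : ℝ) ≤ l := ((le_max_right _ _).trans (le_max_right _ _)).trans hl
  have hl0 : 0 < l := by linarith
  refine ⟨?_, ?_⟩
  · -- lower bound
    have hterm : ∀ p ∈ (Finset.Icc 1 ⌊Real.exp l⌋₊).filter Nat.Prime,
        (((Real.log p ^ 2 / p * kk (Real.log p / l) ^ 2 : ℝ) : ℂ) *
        (co π p * (starRingEnd ℂ) (co π p)) * (p : ℂ) ^ (-((0 : ℝ) * I))).re =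
        Real.log p ^ 2 / p * kk (Real.log p / l) ^ 2 * ‖co π p‖ ^ 2 := by
      intro p _
      rw [Complex.mul_conj, Complex.ofReal_zero, zero_mul, neg_zero, Complex.cpow_zero, mul_one,
        ← Complex.ofReal_mul, Complex.ofReal_re, Complex.normSq_eq_norm_sq]
    have e1 : (Qr π π l 0).re = (1 / l ^ 2) * ∑ p ∈ (Finset.Icc 1 ⌊Real.exp l⌋₊).filter Nat.Prime,
        Real.log p ^ 2 / p * kk (Real.log p / l) ^ 2 * ‖co π p‖ ^ 2 := by
      unfold Qr
      rw [Complex.re_ofReal_mul, Complex.re_sum, Finset.sum_congr rfl hterm]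
    have h1 : (l / 2) * ∑ p ∈ (Finset.Ioc ⌊Real.exp (l / 2)⌋₊ ⌊Real.exp (3 * l / 4)⌋₊).filter
        Nat.Prime, Real.log p / p ≤ ∑ p ∈ (Finset.Icc 1 ⌊Real.exp l⌋₊).filter Nat.Prime,
        Real.log p ^ 2 / p * kk (Real.log p / l) ^ 2 * ‖co π p‖ ^ 2 := by
      rw [Finset.mul_sum]
      have hsub : (Finset.Ioc ⌊Real.exp (l / 2)⌋₊ ⌊Real.exp (3 * l / 4)⌋₊).filter Nat.Prime ⊆
          (Finset.Icc 1 ⌊Real.exp l⌋₊).filter Nat.Prime := by
        apply Finset.filter_subset_filter
        intro p hp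
        rw [Finset.mem_Ioc] at hp
        rw [Finset.mem_Icc]
        refine ⟨by omega, hp.2.trans (Nat.floor_le_floor (Real.exp_le_exp.2 (by linarith)))⟩
      refine le_trans ?_ (Finset.sum_le_sum_of_subset_of_nonneg hsub (fun p _ _ => by positivity))
      apply Finset.sum_le_sum
      intro p hp
      rw [Finset.mem_filter, Finset.mem_Ioc] at hp
      obtain ⟨⟨hp1, hp2⟩, hpp⟩ := hp
      have hp0 : (0 : ℝ) < p := by exact_mod_cast hpp.pos
      have hpl : Real.exp (l / 2) < p := Nat.lt_of_floor_lt hp1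
      have hpu : (p : ℝ) ≤ Real.exp (3 * l / 4) :=
        (Nat.cast_le.2 hp2).trans (Nat.floor_le (Real.exp_pos _).le)
      have hlog1 : l / 2 ≤ Real.log p := by
        rw [Real.le_log_iff_exp_le hp0]; exact hpl.le
      have hlog2 : Real.log p ≤ 3 * l / 4 := by
        rw [Real.log_le_iff_le_exp hp0]; exact hpu
      have hk : kk (Real.log p / l) = 1 := by
        apply kk_eq_one
        · rw [div_le_div_iff₀ (by norm_num) hl0]; linarith
        · rw [div_le_div_iff₀ hl0 (by norm_num)]; linarith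
      have hq : π.q < p := by
        have h2 : (π.q : ℝ) < p := by
          have h3 : l / 2 + 1 ≤ Real.exp (l / 2) := Real.add_one_le_exp _
          linarith
        exact_mod_cast h2
      rw [hk, norm_co_eq π hpp hq]
      have : l / 2 * (Real.log p / p) ≤ Real.log p * (Real.log p / p) :=
        mul_le_mul_of_nonneg_right hlog1 (div_nonneg (by linarith) hp0.le)
      calc l / 2 * (Real.log p / p) ≤ Real.log p * (Real.log p / p) := this
        _ = Real.log p ^ 2 / p * 1 ^ 2 * 1 ^ 2 := by ring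
    have h2 := hP l (by linarith)
    rw [e1]
    have h3 : (l / 2) * (l / 4 - C) ≤ ∑ p ∈ (Finset.Icc 1 ⌊Real.exp l⌋₊).filter Nat.Prime,
        Real.log p ^ 2 / p * kk (Real.log p / l) ^ 2 * ‖co π p‖ ^ 2 :=
      (mul_le_mul_of_nonneg_left h2 (by linarith)).trans h1
    have h4 : (1 / l ^ 2) * ((l / 2) * (l / 4 - C)) ≤ (1 / l ^ 2) *
        ∑ p ∈ (Finset.Icc 1 ⌊Real.exp l⌋₊).filter Nat.Prime,
        Real.log p ^ 2 / p * kk (Real.log p / l) ^ 2 * ‖co π p‖ ^ 2 :=
      mul_le_mul_of_nonneg_left h3 (by positivity)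
    refine le_trans ?_ h4
    rw [one_div_mul_eq_div, le_div_iff₀ (by positivity)]
    nlinarith
  · intro π' π'' u
    have h1 : ‖∑ p ∈ (Finset.Icc 1 ⌊Real.exp l⌋₊).filter Nat.Prime,
        ((Real.log p ^ 2 / p * kk (Real.log p / l) ^ 2 : ℝ) : ℂ) *
        (co π' p * (starRingEnd ℂ) (co π'' p)) * (p : ℂ) ^ (-(u * I))‖ ≤ l * (l + 6) := by
      calc _ ≤ ∑ p ∈ (Finset.Icc 1 ⌊Real.exp l⌋₊).filter Nat.Prime,
            l * (ArithmeticFunction.vonMangoldt p / p) := by
            apply norm_sum_le_of_le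
            intro p hp
            rw [Finset.mem_filter, Finset.mem_Icc] at hp
            obtain ⟨⟨hp1, hp2⟩, hpp⟩ := hp
            have hp0 : (0 : ℝ) < p := by exact_mod_cast hpp.pos
            have hpu : (p : ℝ) ≤ Real.exp l :=
              (Nat.cast_le.2 hp2).trans (Nat.floor_le (Real.exp_pos _).le)
            have hlog : Real.log p ≤ l := by
              rw [Real.log_le_iff_le_exp hp0]; exact hpu
            have hlog0 : 0 ≤ Real.log p := Real.log_nonneg (by exact_mod_cast hp1)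
            rw [norm_mul, norm_mul, norm_mul, norm_pow_it hpp.pos, RCLike.norm_conj,
              Complex.norm_real, Real.norm_eq_abs, mul_one,
              ArithmeticFunction.vonMangoldt_apply_prime hpp]
            have hk1 := kk_nonneg (Real.log p / l)
            have hk2 := kk_le_one (Real.log p / l)
            have hk3 : kk (Real.log p / l) ^ 2 ≤ 1 := pow_le_one₀ hk1 hk2
            have hc1 := norm_co_le π' p
            have hc2 := norm_co_le π'' p
            rw [abs_of_nonneg (by positivity)]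
            calc Real.log p ^ 2 / p * kk (Real.log p / l) ^ 2 * (‖co π' p‖ * ‖co π'' p‖)
                ≤ Real.log p ^ 2 / p * 1 * (1 * 1) := by gcongr
              _ = Real.log p * (Real.log p / p) := by ring
              _ ≤ l * (Real.log p / p) :=
                mul_le_mul_of_nonneg_right hlog (div_nonneg hlog0 hp0.le)
        _ = l * ∑ p ∈ (Finset.Icc 1 ⌊Real.exp l⌋₊).filter Nat.Prime,
            (ArithmeticFunction.vonMangoldt p / (p : ℝ)) := by rw [Finset.mul_sum]
        _ ≤ l * ∑ p ∈ (Finset.Icc 1 ⌊Real.exp l⌋₊),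
            (ArithmeticFunction.vonMangoldt p / (p : ℝ)) := by
            apply mul_le_mul_of_nonneg_left _ hl0.le
            apply Finset.sum_le_sum_of_subset_of_nonneg (Finset.filter_subset _ _)
            intro p _ _
            exact div_nonneg ArithmeticFunction.vonMangoldt_nonneg (Nat.cast_nonneg p)
        _ ≤ l * (l + 6) := by
            apply mul_le_mul_of_nonneg_left _ hl0.le
            have := mertens_le_real (Real.one_le_exp hl0.le)
            rwa [Real.log_exp] at this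
    unfold Qr
    rw [norm_mul, Complex.norm_real, Real.norm_eq_abs, abs_of_pos (by positivity)]
    calc 1 / l ^ 2 * _ ≤ 1 / l ^ 2 * (l * (l + 6)) :=
          mul_le_mul_of_nonneg_left h1 (by positivity)
      _ ≤ 2 := by
          rw [one_div_mul_eq_div, div_le_iff₀ (by positivity)]
          nlinarith

end Pool.Agent.H73.PP
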