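import Pool.Agent.H73.PP.PD

/-!
# PP, module PR: prime powers
-/

set_option autoImplicit false

open Complex MeasureTheory Set Finset

namespace Pool.Agent.H73.PP

open Pool.Agent.H23.GLH (PrimChar)
open Pool.Agent.H28.MZ (co)
open Pool.Agent.H74.PP
open Pool.Agent.H22.MR

/-- sums over prime powers -/
theorem pp_le (F : ℕ → ℝ) (hF : ∀ n, 0 ≤ F n)
    (hF0 : ∀ n, ArithmeticFunction.vonMangoldt n = 0 → F n = 0) (N : ℕ) :
    ∑ n ∈ (Finset.Icc 1 N).filter (fun n => ¬ n.Prime), F n ≤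
      ∑ p ∈ (Finset.Icc 1 (Nat.sqrt N)).filter Nat.Prime, ∑ j ∈ Finset.Icc 2 N, F (p ^ j) := by
  classical
  set S : Finset (ℕ × ℕ) := ((Finset.Icc 1 (Nat.sqrt N)).filter Nat.Prime) ×ˢ Finset.Icc 2 N with hS
  have h1 : ∑ n ∈ (Finset.Icc 1 N).filter (fun n => ¬ n.Prime), F n ≤
      ∑ n ∈ S.image (fun q => q.1 ^ q.2), F n := by
    have h2 : ∑ n ∈ (Finset.Icc 1 N).filter (fun n => ¬ n.Prime), F n =
        ∑ n ∈ ((Finset.Icc 1 N).filter (fun n => ¬ n.Prime)).filter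
          (fun n => ArithmeticFunction.vonMangoldt n ≠ 0), F n := by
      symm
      apply Finset.sum_filter_of_ne
      intro n _ hn h0
      exact hn (hF0 n h0)
    rw [h2]
    apply Finset.sum_le_sum_of_subset_of_nonneg
    · intro n hn
      rw [Finset.mem_filter, Finset.mem_filter, Finset.mem_Icc] at hn
      obtain ⟨⟨⟨hn1, hn2⟩, hnp⟩, hΛ⟩ := hn
      have hpp := ArithmeticFunction.vonMangoldt_ne_zero_iff.1 hΛ
      rw [isPrimePow_nat_iff] at hpp
      obtain ⟨p, k, hp, hk, rfl⟩ := hpp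
      have hk2 : 2 ≤ k := by
        by_contra hcon
        have : k = 1 := by omega
        subst this
        rw [pow_one] at hnp
        exact hnp hp
      rw [Finset.mem_image]
      refine ⟨(p, k), ?_, rfl⟩
      rw [hS, Finset.mem_product, Finset.mem_filter, Finset.mem_Icc, Finset.mem_Icc]
      refine ⟨⟨⟨hp.pos, ?_⟩, hp⟩, hk2, ?_⟩
      · rw [Nat.le_sqrt']
        exact (Nat.pow_le_pow_right hp.pos hk2).trans hn2
      · exact (Nat.lt_pow_self hp.one_lt).le.trans hn2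
    · intro n _ _
      exact hF n
  refine h1.trans ((Finset.sum_image_le_of_nonneg (fun u _ => hF u)).trans (le_of_eq ?_))
  rw [hS, Finset.sum_product]

/-- a geometric sum -/
theorem geom_le {x b : ℝ} (hx0 : 0 ≤ x) (hx1 : x < 1) (hb : 1 ≤ b * (1 - x)) (N : ℕ) :
    ∑ j ∈ Finset.Icc 2 N, x ^ j ≤ b * x ^ 2 := by
  have h1 : ∀ N : ℕ, ∑ j ∈ Finset.Icc 2 (N + 1), x ^ j ≤ b * x ^ 2 - b * x ^ (N + 2) := by
    intro N
    induction N with
    | zero => simp
    | succ N ih =>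
      rw [Finset.sum_Icc_succ_top (by omega)]
      have h2 : x ^ (N + 1 + 1) ≤ b * (1 - x) * x ^ (N + 2) := by
        have : 0 ≤ x ^ (N + 2) := by positivity
        calc x ^ (N + 1 + 1) = 1 * x ^ (N + 2) := by ring
          _ ≤ b * (1 - x) * x ^ (N + 2) := mul_le_mul_of_nonneg_right hb this
      have h3 : b * x ^ (N + 1 + 2) = b * x * x ^ (N + 2) := by ring
      rw [h3]
      nlinarith
  have hb0 : 0 ≤ b := by
    by_contra hcon
    push Not at hcon
    nlinarith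
  rcases Nat.eq_zero_or_pos N with h | h
  · subst h
    simp
    positivity
  · obtain ⟨M, rfl⟩ : ∃ M, N = M + 1 := ⟨N - 1, by omega⟩
    refine (h1 M).trans ?_
    have : 0 ≤ b * x ^ (M + 2) := by positivity
    linarith

theorem vm_pow {p : ℕ} (hp : p.Prime) {j : ℕ} (hj : 2 ≤ j) :
    ArithmeticFunction.vonMangoldt (p ^ j) = Real.log p := by
  rw [ArithmeticFunction.vonMangoldt_apply_pow (by omega),
    ArithmeticFunction.vonMangoldt_apply_prime hp]

/-- first order sum -/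
theorem pp_one (l : ℝ) (hl : 1 ≤ l) :
    ∑ n ∈ (Finset.Icc 1 ⌊Real.exp l⌋₊).filter (fun n => ¬ n.Prime),
      ArithmeticFunction.vonMangoldt n * (n : ℝ) ^ (-(1 / 2 : ℝ)) ≤ 26 * l := by
  have hVM : ∀ n : ℕ, 0 ≤ ArithmeticFunction.vonMangoldt n := fun n =>
    ArithmeticFunction.vonMangoldt_nonneg
  refine (pp_le (fun n => ArithmeticFunction.vonMangoldt n * (n : ℝ) ^ (-(1 / 2 : ℝ)))
    (fun n => mul_nonneg (hVM n) (by positivity)) (fun n hn => by simp only [hn, zero_mul]) _).trans ?_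
  have h1 : ∀ p ∈ (Finset.Icc 1 (Nat.sqrt ⌊Real.exp l⌋₊)).filter Nat.Prime,
      ∑ j ∈ Finset.Icc 2 ⌊Real.exp l⌋₊, ArithmeticFunction.vonMangoldt (p ^ j) *
        ((p ^ j : ℕ) : ℝ) ^ (-(1 / 2 : ℝ)) ≤ 4 * (ArithmeticFunction.vonMangoldt p / p) := by
    intro p hp
    obtain ⟨-, hpp⟩ := Finset.mem_filter.1 hp
    have hp0 : (0 : ℝ) < p := by exact_mod_cast hpp.pos
    have hp2 : (2 : ℝ) ≤ p := by exact_mod_cast hpp.two_le
    set x : ℝ := (p : ℝ) ^ (-(1 / 2 : ℝ)) with hx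
    have hx0 : 0 < x := Real.rpow_pos_of_pos hp0 _
    have hxsq : x ^ 2 = 1 / p := by
      rw [hx, ← Real.rpow_natCast, ← Real.rpow_mul hp0.le]
      norm_num
      rw [Real.rpow_neg_one]
    have hx34 : x ≤ 3 / 4 := by
      have : x ^ 2 ≤ (3 / 4) ^ 2 := by
        rw [hxsq, div_le_iff₀ hp0]
        nlinarith
      exact le_of_sq_le_sq this (by norm_num)
    have hterm : ∀ j ∈ Finset.Icc 2 ⌊Real.exp l⌋₊, ArithmeticFunction.vonMangoldt (p ^ j) *
        ((p ^ j : ℕ) : ℝ) ^ (-(1 / 2 : ℝ)) = Real.log p * x ^ j := by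
      intro j hj
      rw [Finset.mem_Icc] at hj
      rw [vm_pow hpp hj.1]
      congr 1
      push_cast
      rw [hx, ← Real.rpow_natCast, ← Real.rpow_natCast, ← Real.rpow_mul hp0.le,
        ← Real.rpow_mul hp0.le, mul_comm]
    rw [Finset.sum_congr rfl hterm, ← Finset.mul_sum,
      ArithmeticFunction.vonMangoldt_apply_prime hpp]
    have hg := geom_le hx0.le (by linarith) (b := 4) (by linarith) ⌊Real.exp l⌋₊
    rw [hxsq] at hg
    have hlog : 0 ≤ Real.log p := Real.log_nonneg (by linarith)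
    calc Real.log p * _ ≤ Real.log p * (4 * (1 / p)) := mul_le_mul_of_nonneg_left hg hlog
      _ = 4 * (Real.log p / p) := by ring
  refine (Finset.sum_le_sum h1).trans ?_
  rw [← Finset.mul_sum]
  have h2 : ∑ p ∈ (Finset.Icc 1 (Nat.sqrt ⌊Real.exp l⌋₊)).filter Nat.Prime,
      ArithmeticFunction.vonMangoldt p / (p : ℝ) ≤
      ∑ p ∈ Finset.Icc 1 (Nat.sqrt ⌊Real.exp l⌋₊), ArithmeticFunction.vonMangoldt p / (p : ℝ) := by
    apply Finset.sum_le_sum_of_subset_of_nonneg (Finset.filter_subset _ _)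
    intro p _ _
    exact div_nonneg (hVM p) (Nat.cast_nonneg p)
  have hE1 : 1 ≤ ⌊Real.exp l⌋₊ := by
    rw [Nat.one_le_floor_iff]
    exact Real.one_le_exp (by linarith)
  have h3 : 1 ≤ Nat.sqrt ⌊Real.exp l⌋₊ := by
    rw [Nat.le_sqrt]
    omega
  have h4 := mertens_le h3
  have h5 : Real.log (Nat.sqrt ⌊Real.exp l⌋₊) ≤ l / 2 := by
    have hs0 : (0 : ℝ) < Nat.sqrt ⌊Real.exp l⌋₊ := by exact_mod_cast h3
    have h6 : ((Nat.sqrt ⌊Real.exp l⌋₊ : ℕ) : ℝ) ^ 2 ≤ Real.exp l := by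
      have h7 : (Nat.sqrt ⌊Real.exp l⌋₊) ^ 2 ≤ ⌊Real.exp l⌋₊ := Nat.sqrt_le' _
      have h8 : ((Nat.sqrt ⌊Real.exp l⌋₊ : ℕ) : ℝ) ^ 2 ≤ (⌊Real.exp l⌋₊ : ℝ) := by exact_mod_cast h7
      exact h8.trans (Nat.floor_le (Real.exp_pos l).le)
    have h9 := Real.log_le_log (by positivity) h6
    rw [Real.log_pow, Real.log_exp] at h9
    push_cast at h9
    linarith
  linarith

/-- second order sum -/
theorem pp_two : ∃ C : ℝ, 0 < C ∧ ∀ N : ℕ,
    ∑ n ∈ (Finset.Icc 1 N).filter (fun n => ¬ n.Prime),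
      ArithmeticFunction.vonMangoldt n ^ 2 / (n : ℝ) ≤ C := by
  have hsum : Summable (fun n : ℕ => (32 : ℝ) * (1 / (n : ℝ) ^ (3 / 2 : ℝ))) :=
    (Real.summable_one_div_nat_rpow.2 (by norm_num)).mul_left 32
  have hnn : ∀ n : ℕ, 0 ≤ (32 : ℝ) * (1 / (n : ℝ) ^ (3 / 2 : ℝ)) := fun n => by positivity
  refine ⟨(∑' n : ℕ, (32 : ℝ) * (1 / (n : ℝ) ^ (3 / 2 : ℝ))) + 1,
    by have := tsum_nonneg (L := SummationFilter.unconditional ℕ) hnn; linarith, fun N => ?_⟩
  refine (pp_le (fun n => ArithmeticFunction.vonMangoldt n ^ 2 / (n : ℝ))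
    (fun n => by positivity) (fun n hn => by simp only [hn]; simp) _).trans ?_
  have h1 : ∀ p ∈ (Finset.Icc 1 (Nat.sqrt N)).filter Nat.Prime,
      ∑ j ∈ Finset.Icc 2 N, ArithmeticFunction.vonMangoldt (p ^ j) ^ 2 /
        ((p ^ j : ℕ) : ℝ) ≤ (32 : ℝ) * (1 / (p : ℝ) ^ (3 / 2 : ℝ)) := by
    intro p hp
    obtain ⟨-, hpp⟩ := Finset.mem_filter.1 hp
    have hp0 : (0 : ℝ) < p := by exact_mod_cast hpp.pos
    have hp2 : (2 : ℝ) ≤ p := by exact_mod_cast hpp.two_le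
    have hterm : ∀ j ∈ Finset.Icc 2 N, ArithmeticFunction.vonMangoldt (p ^ j) ^ 2 /
        ((p ^ j : ℕ) : ℝ) = Real.log p ^ 2 * (1 / (p : ℝ)) ^ j := by
      intro j hj
      rw [Finset.mem_Icc] at hj
      rw [vm_pow hpp hj.1]
      push_cast
      rw [div_pow, one_pow]
      ring
    rw [Finset.sum_congr rfl hterm, ← Finset.mul_sum]
    have hx1 : 1 / (p : ℝ) ≤ 1 / 2 := one_div_le_one_div_of_le (by norm_num) hp2
    have hg := geom_le (x := 1 / (p : ℝ)) (by positivity) (by linarith) (b := 2) (by linarith) N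
    have hlog : Real.log p ≤ 4 * (p : ℝ) ^ (1 / 4 : ℝ) := by
      have := Real.log_le_rpow_div hp0.le (show (0 : ℝ) < 1 / 4 by norm_num)
      linarith
    have hlog0 : 0 ≤ Real.log p := Real.log_nonneg (by linarith)
    have hlog2 : Real.log p ^ 2 ≤ 16 * (p : ℝ) ^ (1 / 2 : ℝ) := by
      calc Real.log p ^ 2 ≤ (4 * (p : ℝ) ^ (1 / 4 : ℝ)) ^ 2 := pow_le_pow_left₀ hlog0 hlog 2
        _ = 16 * (p : ℝ) ^ (1 / 2 : ℝ) := by
          rw [mul_pow, ← Real.rpow_natCast ((p : ℝ) ^ (1 / 4 : ℝ)), ← Real.rpow_mul hp0.le]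
          norm_num
    calc Real.log p ^ 2 * _ ≤ (16 * (p : ℝ) ^ (1 / 2 : ℝ)) * (2 * (1 / (p : ℝ)) ^ 2) := by
          gcongr
      _ = 32 * (1 / (p : ℝ) ^ (3 / 2 : ℝ)) := by
          have e1 : (p : ℝ) ^ (3 / 2 : ℝ) * (p : ℝ) ^ (1 / 2 : ℝ) = (p : ℝ) ^ 2 := by
            rw [← Real.rpow_add hp0]
            norm_num
          have h3 : (0 : ℝ) < (p : ℝ) ^ (3 / 2 : ℝ) := Real.rpow_pos_of_pos hp0 _
          have h4 : (0 : ℝ) < (p : ℝ) ^ (1 / 2 : ℝ) := Real.rpow_pos_of_pos hp0 _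
          rw [div_pow, one_pow, ← e1]
          field_simp
          norm_num
  refine (Finset.sum_le_sum h1).trans ?_
  have := hsum.sum_le_tsum ((Finset.Icc 1 (Nat.sqrt N)).filter Nat.Prime) (fun n _ => hnn n)
  linarith

/-- `Pr - Pp` -/
theorem Pr_sub_Pp (π : PrimChar) (l t : ℝ) :
    Pr π l t - Pp π l t = (1 / l : ℝ) *
      ∑ n ∈ (Finset.Icc 1 ⌊Real.exp l⌋₊).filter (fun n => ¬ n.Prime),
        ((ArithmeticFunction.vonMangoldt n * (n : ℝ) ^ (-(1 / 2 : ℝ)) * kk (Real.log n / l) : ℝ) : ℂ) *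
          co π n * (n : ℂ) ^ (-(t * I)) := by
  unfold Pr Pp
  rw [← mul_sub]
  congr 1
  rw [← Finset.sum_filter_add_sum_filter_not (Finset.Icc 1 ⌊Real.exp l⌋₊) Nat.Prime]
  have h1 : ∑ p ∈ (Finset.Icc 1 ⌊Real.exp l⌋₊).filter Nat.Prime,
      ((ArithmeticFunction.vonMangoldt p * (p : ℝ) ^ (-(1 / 2 : ℝ)) * kk (Real.log p / l) : ℝ) : ℂ) *
          co π p * (p : ℂ) ^ (-(t * I)) = ∑ p ∈ (Finset.Icc 1 ⌊Real.exp l⌋₊).filter Nat.Prime,
    ((Real.log p * (p : ℝ) ^ (-(1 / 2 : ℝ)) * kk (Real.log p / l) : ℝ) : ℂ) *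
      co π p * (p : ℂ) ^ (-(t * I)) := by
    apply Finset.sum_congr rfl
    intro p hp
    rw [ArithmeticFunction.vonMangoldt_apply_prime (Finset.mem_filter.1 hp).2]
  rw [h1]
  ring

theorem term_norm (π : PrimChar) (l : ℝ) (n : ℕ) (hl : 0 < l) :
    ‖((1 / l : ℝ) : ℂ) * (((ArithmeticFunction.vonMangoldt n * (n : ℝ) ^ (-(1 / 2 : ℝ)) *
      kk (Real.log n / l) : ℝ) : ℂ) * co π n)‖ ≤
      1 / l * (ArithmeticFunction.vonMangoldt n * (n : ℝ) ^ (-(1 / 2 : ℝ))) := by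
  have h1 : 0 ≤ ArithmeticFunction.vonMangoldt n := ArithmeticFunction.vonMangoldt_nonneg
  have h2 := kk_nonneg (Real.log n / l)
  have h3 := kk_le_one (Real.log n / l)
  have h4 := norm_co_le π n
  rw [norm_mul, norm_mul, Complex.norm_real, Complex.norm_real, Real.norm_eq_abs, Real.norm_eq_abs,
    abs_of_pos (by positivity), abs_of_nonneg (by positivity)]
  calc 1 / l * (ArithmeticFunction.vonMangoldt n * (n : ℝ) ^ (-(1 / 2 : ℝ)) *
      kk (Real.log n / l) * ‖co π n‖) ≤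
      1 / l * (ArithmeticFunction.vonMangoldt n * (n : ℝ) ^ (-(1 / 2 : ℝ)) * 1 * 1) := by gcongr
    _ = _ := by ring

theorem log_gap {m n N : ℕ} (hm : 1 ≤ m) (hn : 1 ≤ n) (hmN : m ≤ N) (hnN : n ≤ N) (h : m ≠ n) :
    1 / (N : ℝ) ≤ |Real.log m - Real.log n| := by
  wlog hlt : m < n generalizing m n
  · rw [abs_sub_comm]
    exact this hn hm hnN hmN h.symm (by omega)
  have hm0 : (0 : ℝ) < m := by exact_mod_cast hm
  have hn0 : (0 : ℝ) < n := by exact_mod_cast hn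
  have h1 : Real.log m - Real.log n ≤ -(1 / (n : ℝ)) := by
    rw [← Real.log_div hm0.ne' hn0.ne']
    have h2 := Real.log_le_sub_one_of_pos (div_pos hm0 hn0)
    have h3 : (m : ℝ) + 1 ≤ n := by exact_mod_cast hlt
    have h4 : (m : ℝ) / n - 1 ≤ -(1 / (n : ℝ)) := by
      rw [div_sub_one hn0.ne', neg_div', div_le_div_iff_of_pos_right hn0]
      linarith
    linarith
  have h5 : 1 / (N : ℝ) ≤ 1 / (n : ℝ) :=
    one_div_le_one_div_of_le hn0 (by exact_mod_cast hnN)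
  have h6 : 0 < 1 / (n : ℝ) := by positivity
  rw [abs_of_neg (by linarith)]
  linarith

theorem cpow_split {n : ℕ} (hn : 1 ≤ n) (a τ t : ℝ) :
    (n : ℂ) ^ (-(((a * t + τ : ℝ) : ℂ) * I)) =
      (n : ℂ) ^ (-((τ : ℂ) * I)) * cexp (-(((a * Real.log n : ℝ) : ℂ) * t) * I) := by
  have hn0 : (n : ℂ) ≠ 0 := by exact_mod_cast (by omega : n ≠ 0)
  have h1 : -(((a * t + τ : ℝ) : ℂ) * I) = -((τ : ℂ) * I) + -((a : ℂ) * t * I) := by
    push_cast
    ring
  rw [h1, Complex.cpow_add _ _ hn0]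
  congr 1
  rw [Complex.cpow_def_of_ne_zero hn0, ← Complex.natCast_log]
  congr 1
  push_cast
  ring

theorem pr (hMV : T_MV) : T_PR := by
  have hfirst : ∀ (π : PrimChar) (l : ℝ), 1 ≤ l →
      ∑ n ∈ (Finset.Icc 1 ⌊Real.exp l⌋₊).filter (fun n => ¬ n.Prime),
        ‖((1 / l : ℝ) : ℂ) * (((ArithmeticFunction.vonMangoldt n * (n : ℝ) ^ (-(1 / 2 : ℝ)) *
      kk (Real.log n / l) : ℝ) : ℂ) * co π n)‖ ≤ 26 := by
    intro π l hl
    refine (Finset.sum_le_sum (fun n _ => term_norm π l n (by linarith))).trans ?_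
    rw [← Finset.mul_sum, one_div_mul_eq_div, div_le_iff₀ (by linarith)]
    exact pp_one l hl
  refine ⟨⟨26, by norm_num, ?_⟩, ?_⟩
  · intro π l t hl
    rw [Pr_sub_Pp, Finset.mul_sum]
    refine (norm_sum_le_of_le _ (fun n hn => ?_)).trans (hfirst π l hl)
    rw [Finset.mem_filter, Finset.mem_Icc] at hn
    rw [← mul_assoc, norm_mul, norm_pow_it (by omega), mul_one]
  · intro π a δ ε ha hδ hδa hε
    obtain ⟨C, hC, hC2⟩ := pp_two
    -- eventually in `T`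
    have ev : ∀ᶠ T : ℝ in Filter.atTop, 1 ≤ T ∧ 1 ≤ δ * Real.log T / a ∧
        C / (δ * Real.log T / a) ^ 2 ≤ ε / 2 ∧ 2 * 676 / a ≤ ε / 2 * T ^ (1 / 2 : ℝ) := by
      have t1 : Filter.Tendsto (fun T : ℝ => δ * Real.log T / a) Filter.atTop Filter.atTop :=
        (Real.tendsto_log_atTop.const_mul_atTop hδ).atTop_div_const ha
      have t2 : Filter.Tendsto (fun T : ℝ => (δ * Real.log T / a) ^ 2) Filter.atTop Filter.atTop :=
        (Filter.tendsto_pow_atTop two_ne_zero).comp t1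
      have t3 : Filter.Tendsto (fun T : ℝ => ε / 2 * T ^ (1 / 2 : ℝ)) Filter.atTop Filter.atTop :=
        (tendsto_rpow_atTop (by norm_num)).const_mul_atTop (by positivity)
      filter_upwards [Filter.eventually_ge_atTop 1, t1.eventually_ge_atTop 1,
        t2.eventually_ge_atTop (2 * C / ε), t3.eventually_ge_atTop (2 * 676 / a)] with T h1 h2 h3 h4
      refine ⟨h1, h2, ?_, h4⟩
      have h5 : 0 < (δ * Real.log T / a) ^ 2 := by positivity
      rw [div_le_iff₀ h5]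
      rw [div_le_iff₀ hε] at h3
      linarith
    obtain ⟨T₀, hT₀⟩ := Filter.eventually_atTop.1 ev
    refine ⟨T₀, fun T τ hT => ?_⟩
    obtain ⟨hT1, hl1, hl2, hT2⟩ := hT₀ T hT
    set l := δ * Real.log T / a with hl
    have hl0 : 0 < l := by linarith
    set N := ⌊Real.exp l⌋₊ with hN
    set s := (Finset.Icc 1 N).filter (fun n => ¬ n.Prime) with hs
    have hmem : ∀ n ∈ s, 1 ≤ n ∧ n ≤ N := by
      intro n hn
      rw [hs, Finset.mem_filter, Finset.mem_Icc] at hn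
      exact hn.1
    set b : ℕ → ℂ := fun n => ((1 / l : ℝ) : ℂ) * (((ArithmeticFunction.vonMangoldt n *
      (n : ℝ) ^ (-(1 / 2 : ℝ)) * kk (Real.log n / l) : ℝ) : ℂ) * co π n) with hb
    set c : ℕ → ℂ := fun n => b n * (n : ℂ) ^ (-((τ : ℂ) * I)) with hc
    have hcn : ∀ n ∈ s, ‖c n‖ = ‖b n‖ := by
      intro n hn
      rw [hc]
      simp only
      rw [norm_mul, norm_pow_it (by have := (hmem n hn).1; omega), mul_one]
    have hN1 : 1 ≤ N := by
      rw [hN, Nat.one_le_floor_iff]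
      exact Real.one_le_exp hl0.le
    have hN0 : (0 : ℝ) < N := by exact_mod_cast hN1
    have hmv := hMV s c (fun n => a * Real.log n) (a / N) T (2 * T) (by positivity) (by linarith)
      (by
        intro m hm n hn hmn
        rw [← mul_sub, abs_mul, abs_of_pos ha, div_eq_mul_one_div]
        exact mul_le_mul_of_nonneg_left (log_gap (hmem m hm).1 (hmem n hn).1 (hmem m hm).2
          (hmem n hn).2 hmn) ha.le)
    have hint : (∫ t in T..(2 * T), ‖Pr π l (a * t + τ) - Pp π l (a * t + τ)‖ ^ 2) =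
        ∫ t in T..(2 * T), ‖∑ n ∈ s, c n * cexp (-(((fun n : ℕ => a * Real.log n) n : ℝ) * t) * I)‖ ^ 2 := by
      apply intervalIntegral.integral_congr
      intro t _
      simp only
      congr 2
      rw [Pr_sub_Pp, Finset.mul_sum]
      apply Finset.sum_congr rfl
      intro n hn
      rw [cpow_split (hmem n hn).1 a τ t]
      simp only [hc, hb]
      ring
    rw [hint]
    have h1 := (abs_le.1 hmv).2
    have h2 : ∑ n ∈ s, ‖c n‖ ≤ 26 := by
      rw [Finset.sum_congr rfl hcn]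
      exact hfirst π l hl1
    have h3 : ∑ n ∈ s, ‖c n‖ ^ 2 ≤ C / l ^ 2 := by
      rw [Finset.sum_congr rfl (fun n hn => by rw [hcn n hn])]
      have h4 : ∀ n ∈ s, ‖b n‖ ^ 2 ≤ 1 / l ^ 2 * (ArithmeticFunction.vonMangoldt n ^ 2 / (n : ℝ)) := by
        intro n hn
        have hn0 : (0 : ℝ) < n := by exact_mod_cast (hmem n hn).1
        calc ‖b n‖ ^ 2 ≤ (1 / l * (ArithmeticFunction.vonMangoldt n *
              (n : ℝ) ^ (-(1 / 2 : ℝ)))) ^ 2 :=
              pow_le_pow_left₀ (norm_nonneg _) (term_norm π l n hl0) 2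
          _ = _ := by
              have e : ((n : ℝ) ^ (-(1 / 2 : ℝ))) ^ 2 = (n : ℝ)⁻¹ := by
                rw [← Real.rpow_natCast, ← Real.rpow_mul hn0.le]
                norm_num
                rw [Real.rpow_neg_one]
              rw [mul_pow, mul_pow, e, div_pow, one_pow]
              ring
      refine (Finset.sum_le_sum h4).trans ?_
      rw [← Finset.mul_sum, one_div_mul_eq_div]
      exact div_le_div_of_nonneg_right (hC2 N) (by positivity)
    have h5 : (∑ n ∈ s, ‖c n‖) ^ 2 ≤ 676 := by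
      have h6 : 0 ≤ ∑ n ∈ s, ‖c n‖ := Finset.sum_nonneg (fun n _ => norm_nonneg _)
      nlinarith
    have h7 : (N : ℝ) ≤ T ^ (1 / 2 : ℝ) := by
      have h8 : (N : ℝ) ≤ Real.exp l := Nat.floor_le (Real.exp_pos l).le
      have hT0 : 0 < T := by linarith
      have h9 : Real.exp l ≤ T ^ (1 / 2 : ℝ) := by
        rw [Real.rpow_def_of_pos hT0]
        apply Real.exp_le_exp.2
        have hlog : 0 ≤ Real.log T := Real.log_nonneg hT1
        rw [hl, div_le_iff₀ ha]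
        nlinarith
      linarith
    have h10 : T ^ (1 / 2 : ℝ) * T ^ (1 / 2 : ℝ) = T := by
      rw [← Real.rpow_add (by linarith)]
      norm_num
    have h11 : 2 / (a / N) * (∑ n ∈ s, ‖c n‖) ^ 2 ≤ ε / 2 * T := by
      calc 2 / (a / N) * (∑ n ∈ s, ‖c n‖) ^ 2 ≤ 2 / (a / N) * 676 := by gcongr
        _ = (2 * 676 / a) * N := by field_simp
        _ ≤ (ε / 2 * T ^ (1 / 2 : ℝ)) * T ^ (1 / 2 : ℝ) := by
            apply mul_le_mul hT2 h7 hN0.le (by positivity)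
        _ = ε / 2 * T := by rw [mul_assoc, h10]
    have h12 : (2 * T - T) * ∑ n ∈ s, ‖c n‖ ^ 2 ≤ ε / 2 * T := by
      have h13 := h3.trans hl2
      nlinarith
    linarith

end Pool.Agent.H73.PP
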